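import Pool.Agent.H34.PS.Targets

/-!
# Row EP: the Euler product of a completely multiplicative function
-/

set_option autoImplicit false

open Finset Filter Topology
open Pool.Agent.H34.PS

namespace Pool.Agent.H94.PSQ

theorem ep_low {u : ℝ} (h : |u| ≤ 1 / 2) : Real.exp u ≤ (1 - u)⁻¹ := by
  have h0 := abs_le.1 h
  have h1 : 0 < 1 - u := by linarith [h0.2]
  have h2 : 1 - u ≤ Real.exp (-u) := by
    have := Real.add_one_le_exp (-u)
    linarith
  rw [Real.exp_neg] at h2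
  rw [le_inv_comm₀ (Real.exp_pos u) h1]
  exact h2

theorem ep_up {u : ℝ} (h : |u| ≤ 1 / 2) : (1 - u)⁻¹ ≤ Real.exp (u + u ^ 2) := by
  have h0 := abs_le.1 h
  have h1 : 0 < 1 - u := by linarith [h0.2]
  rw [inv_le_iff_one_le_mul₀ h1]
  rcases le_total u 0 with hu | hu
  · have h2 := Real.add_one_le_exp (u + u ^ 2)
    have h3 : 0 ≤ (1 - u) := h1.le
    have h4 : (u + u ^ 2 + 1) * (1 - u) ≤ Real.exp (u + u ^ 2) * (1 - u) :=
      mul_le_mul_of_nonneg_right h2 h3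
    have h5 : (u + u ^ 2 + 1) * (1 - u) = 1 + (-u) ^ 3 := by ring
    have h6 : 0 ≤ (-u) ^ 3 := pow_nonneg (by linarith) 3
    linarith
  · have h2 := Real.quadratic_le_exp_of_nonneg (x := u + u ^ 2) (by positivity)
    have h4 : (1 + (u + u ^ 2) + (u + u ^ 2) ^ 2 / 2) * (1 - u) ≤
        Real.exp (u + u ^ 2) * (1 - u) := mul_le_mul_of_nonneg_right h2 h1.le
    have h5 : (1 + (u + u ^ 2) + (u + u ^ 2) ^ 2 / 2) * (1 - u) =
        1 + u ^ 2 * ((1 - u) * (1 + u) ^ 2 / 2 - u) := by ring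
    have h6 : 0 ≤ (1 - u) * (1 + u) ^ 2 / 2 - u := by
      nlinarith [mul_nonneg hu hu, mul_nonneg hu (sub_nonneg.2 h0.2),
        mul_nonneg (mul_nonneg hu hu) (sub_nonneg.2 h0.2)]
    have h8 : 0 ≤ u ^ 2 * ((1 - u) * (1 + u) ^ 2 / 2 - u) := mul_nonneg (sq_nonneg u) h6
    linarith

theorem ep_sq (s : Finset Nat.Primes) : ∑ p ∈ s, (1 : ℝ) / ((p : ℕ) : ℝ) ^ 2 ≤ 1 := by
  classical
  have h1 := hasSum_zeta_two
  have hinj : Function.Injective (fun p : Nat.Primes => (p : ℕ)) := Nat.Primes.coe_nat_injective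
  have h2 : ∑ p ∈ s, (1 : ℝ) / ((p : ℕ) : ℝ) ^ 2 =
      ∑ n ∈ s.image (fun p : Nat.Primes => (p : ℕ)), (1 : ℝ) / ((n : ℕ) : ℝ) ^ 2 := by
    rw [Finset.sum_image fun a _ b _ h => hinj h]
  have h3 : (1 : ℕ) ∉ s.image (fun p : Nat.Primes => (p : ℕ)) := by
    intro h
    obtain ⟨p, _, hp⟩ := Finset.mem_image.1 h
    exact Nat.not_prime_one (hp ▸ p.2)
  have h4 := sum_le_hasSum (insert 1 (s.image (fun p : Nat.Primes => (p : ℕ))))
    (fun n _ => by positivity) h1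
  rw [Finset.sum_insert h3, ← h2] at h4
  have h5 : Real.pi < 3.15 := Real.pi_lt_d2
  have h6 := Real.pi_pos
  have h7 : Real.pi ^ 2 / 6 ≤ 2 := by nlinarith
  norm_num at h4
  have h8 : ∑ p ∈ s, (1 : ℝ) / ((p : ℕ) : ℝ) ^ 2 =
      ∑ p ∈ s, (((p : ℕ) : ℝ) ^ 2)⁻¹ := Finset.sum_congr rfl fun p _ => one_div _
  rw [h8]
  linarith

theorem pf_EP : T_EP := by
  intro f f0 f1 fm fb σ hσ
  have hσ0 : (-σ) ≠ 0 := by linarith
  let F : ℕ →*₀ ℝ :=
    { toFun := fun n => f n * (n : ℝ) ^ (-σ)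
      map_zero' := by rw [f0, zero_mul]
      map_one' := by rw [f1, Nat.cast_one, Real.one_rpow, one_mul]
      map_mul' := by
        intro m n
        change f (m * n) * ((m * n : ℕ) : ℝ) ^ (-σ) =
          (f m * (m : ℝ) ^ (-σ)) * (f n * (n : ℝ) ^ (-σ))
        rw [fm, Nat.cast_mul, Real.mul_rpow (Nat.cast_nonneg m) (Nat.cast_nonneg n)]
        ring }
  have hF : ∀ n, F n = f n * (n : ℝ) ^ (-σ) := fun n => rfl
  have hFb : ∀ n, |F n| ≤ (n : ℝ) ^ (-σ) := by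
    intro n
    have h0 : 0 ≤ (n : ℝ) ^ (-σ) := Real.rpow_nonneg (Nat.cast_nonneg n) _
    rw [hF, abs_mul, abs_of_nonneg h0]
    have := mul_le_mul_of_nonneg_right (fb n) h0
    linarith
  have hs0 : Summable fun n : ℕ => (n : ℝ) ^ (-σ) := Real.summable_nat_rpow.2 (by linarith)
  have hsn : Summable fun n : ℕ => ‖F n‖ :=
    Summable.of_nonneg_of_le (fun n => norm_nonneg _) (fun n => by
      rw [Real.norm_eq_abs]; exact hFb n) hs0
  have hs : Summable fun n : ℕ => F n := hsn.of_norm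
  have hinj : Function.Injective (fun p : Nat.Primes => (p : ℕ)) := Nat.Primes.coe_nat_injective
  have hsp : Summable fun p : Nat.Primes => F (p : ℕ) := hs.comp_injective hinj
  have hprod := EulerProduct.eulerProduct_completely_multiplicative_hasProd (f := F) hsn
  -- bound at primes
  have hpb : ∀ p : Nat.Primes, |F (p : ℕ)| ≤ ((p : ℕ) : ℝ)⁻¹ := by
    intro p
    refine (hFb p).trans ?_
    have h1 : (1 : ℝ) ≤ ((p : ℕ) : ℝ) := by exact_mod_cast p.2.one_lt.le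
    have h2 := Real.rpow_le_rpow_of_exponent_le h1 (show -σ ≤ -1 by linarith)
    rwa [Real.rpow_neg_one] at h2
  have hph : ∀ p : Nat.Primes, |F (p : ℕ)| ≤ 1 / 2 := by
    intro p
    refine (hpb p).trans ?_
    have h2 : (2 : ℝ) ≤ ((p : ℕ) : ℝ) := by exact_mod_cast p.2.two_le
    rw [one_div]
    exact inv_anti₀ (by norm_num) h2
  have hpsq : ∀ p : Nat.Primes, F (p : ℕ) ^ 2 ≤ 1 / ((p : ℕ) : ℝ) ^ 2 := by
    intro p
    have h1 := hpb p
    have h2 : F (p : ℕ) ^ 2 = |F (p : ℕ)| ^ 2 := (sq_abs _).symm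
    rw [h2, one_div, ← inv_pow]
    exact pow_le_pow_left₀ (abs_nonneg _) h1 2
  have hS : Tendsto (fun s : Finset Nat.Primes => ∑ p ∈ s, F (p : ℕ)) atTop
      (𝓝 (∑' p : Nat.Primes, F (p : ℕ))) := hsp.hasSum
  have hL : Tendsto (fun s : Finset Nat.Primes => ∏ p ∈ s, (1 - F (p : ℕ))⁻¹) atTop
      (𝓝 (∑' n, F n)) := hprod
  have h1 : Real.exp (∑' p : Nat.Primes, F (p : ℕ)) ≤ ∑' n, F n := by
    refine le_of_tendsto_of_tendsto' ((Real.continuous_exp.tendsto _).comp hS) hL fun s => ?_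
    change Real.exp (∑ p ∈ s, F (p : ℕ)) ≤ _
    rw [Real.exp_sum]
    exact Finset.prod_le_prod (fun p _ => (Real.exp_pos _).le) fun p _ => ep_low (hph p)
  have h2 : ∑' n, F n ≤ Real.exp (∑' p : Nat.Primes, F (p : ℕ) + 1) := by
    refine le_of_tendsto_of_tendsto' hL
      ((Real.continuous_exp.tendsto _).comp (hS.add_const 1)) fun s => ?_
    change _ ≤ Real.exp (∑ p ∈ s, F (p : ℕ) + 1)
    have h3 : ∏ p ∈ s, (1 - F (p : ℕ))⁻¹ ≤ ∏ p ∈ s, Real.exp (F (p : ℕ) + F (p : ℕ) ^ 2) :=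
      Finset.prod_le_prod (fun p _ => (lt_of_lt_of_le (Real.exp_pos _) (ep_low (hph p))).le)
        fun p _ => ep_up (hph p)
    refine h3.trans ?_
    rw [← Real.exp_sum, Finset.sum_add_distrib]
    refine Real.exp_le_exp.2 ?_
    have h4 : ∑ p ∈ s, F (p : ℕ) ^ 2 ≤ 1 :=
      (Finset.sum_le_sum fun p _ => hpsq p).trans (ep_sq s)
    linarith
  have h3 : 0 < ∑' n, F n := lt_of_lt_of_le (Real.exp_pos _) h1
  refine ⟨hsp, h3, ?_, ?_⟩
  · exact (Real.le_log_iff_exp_le h3).2 h1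
  · exact (Real.log_le_iff_le_exp h3).2 h2

end Pool.Agent.H94.PSQ
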